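import Mathlib
import Pool.Agent.H17.CoSob

set_option autoImplicit false

namespace Pool.Agent.Results.MP_1ae613_gt.NotKernel
open Set Filter Topology TopologicalSpace Pool.Agent.H17.CoSob

def Y : Type := M
instance : TopologicalSpace Y := top univ
instance : T1Space Y := t1_top univ

structure X : Type where
  pt : Y
  lv : ℕ

def D (g : Y) (n : ℕ) : Set X := {x | x.pt = g ∧ x.lv ≤ n}

def CX : Set (Set X) := {C | (∃ A : Set Y, IsClosed A ∧ C = X.pt ⁻¹' A) ∨ ∃ g n, C = D g n}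

instance tX : TopologicalSpace X := generateFrom (compl '' CX)

theorem closed_of {C : Set X} (h : C ∈ CX) : IsClosed C :=
  ⟨isOpen_generateFrom_of_mem ⟨C, h, rfl⟩⟩

theorem mem_cl (x y : X) : x ∈ closure ({y} : Set X) ↔ x.pt = y.pt ∧ x.lv ≤ y.lv := by
  constructor
  · intro h
    exact closure_minimal (t := D y.pt y.lv) (singleton_subset_iff.2 ⟨rfl, le_rfl⟩)
      (closed_of (Or.inr ⟨_, _, rfl⟩)) h
  · rintro ⟨h1, h2⟩
    rw [← specializes_iff_mem_closure, specializes_iff_pure]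
    refine (ult_le_nhds CX (pure y) x).2 ?_
    rintro C (⟨A, -, rfl⟩ | ⟨g, n, rfl⟩) hC
    · have : y.pt ∈ A := hC
      exact show x.pt ∈ A from h1 ▸ this
    · have : y ∈ D g n := hC
      exact ⟨h1.trans this.1, h2.trans this.2⟩

instance : T0Space X := by
  refine (t0Space_iff_inseparable X).2 fun x y h => ?_
  have h1 := (mem_cl x y).1 (specializes_iff_mem_closure.1 h.specializes')
  have h2 := (mem_cl y x).1 (specializes_iff_mem_closure.1 h.specializes)
  obtain ⟨a, i⟩ := x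
  obtain ⟨b, j⟩ := y
  simp only at h1 h2
  rw [h1.1, le_antisymm h1.2 h2.2]

theorem cosober_X : CoSober X := by
  classical
  refine cosober_of_remove fun G ⟨x0, hx0⟩ hG hS => ?_
  have hex : ∃ i, (⟨x0.pt, i⟩ : X) ∈ G := ⟨x0.lv, hx0⟩
  let i := Nat.find hex
  have hi : (⟨x0.pt, i⟩ : X) ∈ G := Nat.find_spec hex
  have hmin : ∀ y ∈ G, y.pt = x0.pt → i ≤ y.lv := fun y hy e => Nat.find_min' hex (e ▸ hy)
  rw [sat_iff] at hS
  refine ⟨⟨x0.pt, i⟩, hi, ?_, (sat_iff _).2 ?_⟩
  · rw [isCompact_iff_ultrafilter_le_nhds'] at hG ⊢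
    intro u hu
    obtain ⟨x, hx, hux⟩ := hG u (mem_of_superset hu sdiff_subset)
    by_cases hxe : x = ⟨x0.pt, i⟩
    · subst hxe
      refine ⟨⟨x0.pt, i + 1⟩, ⟨hS _ hi _ ((mem_cl _ _).2 ⟨rfl, Nat.le_succ i⟩), fun e => ?_⟩, ?_⟩
      · have := congrArg X.lv e
        simp at this
      · have hux' := (ult_le_nhds CX u _).1 hux
        refine (ult_le_nhds CX u _).2 ?_
        rintro C (⟨A, hA, rfl⟩ | ⟨g, n, rfl⟩) hC
        · exact hux' _ (Or.inl ⟨A, hA, rfl⟩) hC
        · have h1 := hux' _ (Or.inr ⟨g, n, rfl⟩) hC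
          obtain ⟨y, ⟨hy1, hy2⟩, hy3, hy4⟩ := Ultrafilter.nonempty_of_mem (inter_mem hC hu)
          have e1 : y.pt = x0.pt := hy1.trans h1.1.symm
          refine ⟨h1.1, ?_⟩
          have h2 := hmin y hy3 e1
          have h3 : y.lv ≠ i := fun e => hy4 (by
            obtain ⟨a, j⟩ := y
            simp only at e1 e
            rw [e1, e]; rfl)
          show i + 1 ≤ n
          omega
    · exact ⟨x, ⟨hx, hxe⟩, hux⟩
  · rintro x ⟨hx, hne⟩ y hy
    refine ⟨hS x hx y hy, ?_⟩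
    rintro rfl
    obtain ⟨h1, h2⟩ := (mem_cl _ _).1 hy
    apply hne
    obtain ⟨a, j⟩ := x
    simp only at h1 h2
    have := hmin _ hx h1
    simp only at this
    rw [h1, le_antisymm h2 this]; rfl

def k (x : X) : X := ⟨x.pt, 0⟩

theorem cont_pt : Continuous X.pt :=
  continuous_iff_isClosed.2 fun A hA => closed_of (Or.inl ⟨A, hA, rfl⟩)

theorem cont_in : Continuous (fun g : Y => (⟨g, 0⟩ : X)) := by
  refine continuous_generateFrom_iff.2 ?_
  rintro _ ⟨C, ⟨A, hA, rfl⟩ | ⟨g, n, rfl⟩, rfl⟩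
  · exact hA.isOpen_compl
  · have : (fun g : Y => (⟨g, 0⟩ : X)) ⁻¹' (D g n)ᶜ = {g}ᶜ := by
      ext y; simp [D]
    rw [this]; exact isOpen_compl_singleton

theorem not_cosober : ¬ CoSober (range k) := by
  let e : Y ≃ₜ range k :=
    { toFun := fun g => ⟨⟨g, 0⟩, ⟨g, 0⟩, rfl⟩
      invFun := fun x => x.1.pt
      left_inv := fun _ => rfl
      right_inv := by rintro ⟨_, x, rfl⟩; rfl
      continuous_toFun := cont_in.subtype_mk _
      continuous_invFun := cont_pt.comp continuous_subtype_val }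
  have hT : T1Space (range k) := e.t1Space
  intro h
  obtain ⟨x, hx⟩ := h.2 univ ⟨⟨e (true, 0), trivial⟩, by
      rw [← e.isCompact_preimage]; exact univ_compact, sat_t1 _, by
    intro K₁ K₂ h1 _ h2 _ hK
    rcases no_split (K₁ := e ⁻¹' K₁) (K₂ := e ⁻¹' K₂) (e.isCompact_preimage.2 h1)
      (e.isCompact_preimage.2 h2) (fun y => (hK.ge (mem_univ (e y)) : e y ∈ K₁ ∪ K₂)) with h | h
    · exact Or.inl (e.surjective.preimage_injective h)
    · exact Or.inr (e.surjective.preimage_injective h)⟩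
  have h1 : ∀ y, x = y := fun y => by
    have : y ∈ {y | x ∈ closure {y}} := hx.le trivial
    rw [mem_ofPred_eq, closure_singleton] at this
    exact this
  have := e.injective ((h1 (e (true, 0))).symm.trans (h1 (e (false, 0))))
  cases this

theorem result : ∃ (X : Type) (_ : TopologicalSpace X) (k : X → X),
    CoSober X ∧ Continuous k ∧ (∀ x, k x ∈ closure {x}) ∧ k ∘ k = k ∧
      ¬ CoSober (Set.range k) :=
  ⟨X, tX, k, cosober_X, cont_in.comp cont_pt, fun _ => (mem_cl _ _).2 ⟨rfl, Nat.zero_le _⟩, rfl,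
    not_cosober⟩

end Pool.Agent.Results.MP_1ae613_gt.NotKernel
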